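import Pool.Agent.Helper94.EP.Defs

/-!
Project EP (MP_b8862a_ag), block EP-T: the types of the weights (paper (3.0)).
-/

set_option linter.unusedSectionVars false
set_option linter.unusedVariables false

namespace EP

open PF PG TR Finset

variable {E : Type*} [NormedAddCommGroup E] [InnerProductSpace ℝ E] {Φ X : Finset E} {ℓ : E →ₗ[ℝ] ℝ} {c : ℝ}
  {p : ℕ} {ν : ℕ → E} {l : ℝ}

theorem choose_ge : ∀ {n k : ℕ}, 2 ≤ k → k + 2 ≤ n → n * (n - 1) ≤ 2 * n.choose k := by
  intro n
  induction n with
  | zero => intro k h1 h2; omega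
  | succ n ih =>
    intro k h1 h2
    have two : ∀ m : ℕ, 2 * m.choose 2 = m * (m - 1) := by
      intro m
      rw [Nat.choose_two_right, Nat.mul_div_cancel']
      exact (Nat.even_mul_pred_self m).two_dvd
    by_cases hk : k = 2
    · subst hk
      rw [two]
    · by_cases hk' : k + 2 = n + 1
      · have h3 : (n + 1).choose k = (n + 1).choose 2 := by
          rw [← hk']
          exact Nat.choose_symm_add
        rw [h3, two]
      · obtain ⟨j, rfl⟩ : ∃ j, k = j + 1 := ⟨k - 1, by omega⟩
        rw [Nat.choose_succ_succ]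
        have h3 := ih (k := j) (by omega) (by omega)
        have h4 := ih (k := j + 1) (by omega) (by omega)
        obtain ⟨m, rfl⟩ : ∃ m, n = m + 3 := ⟨n - 3, by omega⟩
        simp only [Nat.add_sub_cancel] at h3 h4 ⊢
        have e1 : m + 3 - 1 = m + 2 := by omega
        rw [e1] at h3 h4
        simp only [Nat.succ_eq_add_one] at *
        nlinarith

variable (A : EA Φ X ℓ c p ν l)
include A

theorem EA.co_diff {i j : ℕ} (hi : i < p) (hj : j < p) (hij : i ≠ j) (x : E) :
    co (ν i - ν j) x = 2 * inner ℝ x (ν i - ν j) / l := by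
  rw [co, A.norm i hi j hj hij]

/-- a transposition -/
theorem EA.swap {x : E} (hx : x ∈ X) (i j : Fin p) (hij : i ≠ j) :
    ∃ y ∈ X, ∀ k : Fin p, (inner ℝ y (ν k) : ℝ) = inner ℝ x (ν (Equiv.swap i j k)) := by
  have hij' : (i : ℕ) ≠ j := fun h => hij (Fin.ext h)
  have hl := A.lpos
  refine ⟨x - co (ν i - ν j) x • (ν i - ν j), A.ep.reflX (A.mem i i.2 j j.2 hij') hx, ?_⟩
  intro k
  rw [inner_sub_left, inner_smul_left, real_inner_comm (ν k) (ν i - ν j), A.inn k k.2 i i.2 j j.2,
    A.co_diff i.2 j.2 hij', inner_sub_right]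
  simp only [conj_trivial]
  by_cases hki : k = i
  · subst hki
    rw [Equiv.swap_apply_left, if_pos rfl, if_neg hij']
    field_simp
    ring
  · by_cases hkj : k = j
    · subst hkj
      rw [Equiv.swap_apply_right, if_pos rfl, if_neg (Ne.symm hij')]
      field_simp
      ring
    · rw [Equiv.swap_apply_of_ne_of_ne hki hkj, if_neg (fun h => hki (Fin.ext h)), if_neg (fun h => hkj (Fin.ext h))]
      ring

/-- all permutations -/
theorem EA.perm (σ : Equiv.Perm (Fin p)) : ∀ x ∈ X, ∃ y ∈ X, ∀ k : Fin p, (inner ℝ y (ν k) : ℝ) = inner ℝ x (ν (σ k)) := by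
  induction σ using Equiv.Perm.swap_induction_on with
  | one => intro x hx; exact ⟨x, hx, fun k => rfl⟩
  | swap_mul f i j hij ih =>
    intro x hx
    obtain ⟨y, hy, hy1⟩ := A.swap hx i j hij
    obtain ⟨z, hz, hz1⟩ := ih y hy
    refine ⟨z, hz, fun k => ?_⟩
    rw [hz1, hy1, Equiv.Perm.mul_apply]

/-- the count -/
theorem EA.cnt {x : E} (hx : x ∈ X) (P : ℝ → Prop) [DecidablePred P]
    (h2 : 2 ≤ (univ.filter fun k : Fin p => P (inner ℝ x (ν k))).card)
    (h3 : (univ.filter fun k : Fin p => P (inner ℝ x (ν k))).card + 2 ≤ p)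
    (h4 : ∀ r : ℝ, (univ.filter fun k : Fin p => (inner ℝ x (ν k) : ℝ) = r).card + 2 ≤ p) : False := by
  classical
  have hp := A.ep.five
  set U := univ.filter fun k : Fin p => P (inner ℝ x (ν k)) with hU
  have key : ∀ W : Finset (Fin p), W.card = U.card → ∃ y ∈ X, (∀ k : Fin p, P (inner ℝ y (ν k)) ↔ k ∈ W) ∧
      ∀ r : ℝ, (univ.filter fun k : Fin p => (inner ℝ y (ν k) : ℝ) = r).card + 2 ≤ p := by
    intro W hW
    let e : {k // k ∈ W} ≃ {k // k ∈ U} := Finset.equivOfCardEq hW
    let σ : Equiv.Perm (Fin p) := e.extendSubtype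
    obtain ⟨y, hy, hy1⟩ := A.perm σ x hx
    refine ⟨y, hy, fun k => ?_, fun r => ?_⟩
    · rw [hy1]
      have h5 : P (inner ℝ x (ν (σ k))) ↔ σ k ∈ U := by simp [hU]
      rw [h5]
      constructor
      · intro h6
        by_contra h7
        exact e.extendSubtype_not_mem k h7 h6
      · intro h6
        exact e.extendSubtype_mem k h6
    · have h8 := h4 r
      have h9 : (univ.filter fun k : Fin p => (inner ℝ y (ν k) : ℝ) = r).card ≤
          (univ.filter fun k : Fin p => (inner ℝ x (ν k) : ℝ) = r).card := by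
        refine Finset.card_le_card_of_injOn (fun k => σ k) ?_ (σ.injective.injOn)
        intro k hk
        have hk' := (mem_filter.1 (mem_coe.1 hk)).2
        refine mem_coe.2 (mem_filter.2 ⟨mem_univ _, ?_⟩)
        rw [← hy1]
        exact hk'
      omega
  choose! F hF1 hF2 hF3 using key
  set S1 := (powersetCard U.card (univ : Finset (Fin p))).image F with hS1
  set S2 := (univ : Finset (Fin p)).image (fun k : Fin p => ν k) with hS2
  set S3 := (univ : Finset (Fin p)).image (fun k : Fin p => -ν k) with hS3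
  have c1 : S1.card = p.choose U.card := by
    rw [hS1, Finset.card_image_of_injOn, card_powersetCard, card_univ, Fintype.card_fin]
    intro W hW W' hW' h5
    have hW1 := (mem_powersetCard.1 hW).2
    have hW1' := (mem_powersetCard.1 hW').2
    ext k
    rw [← hF2 W hW1 k, ← hF2 W' hW1' k]
    rw [h5]
  have c2 : S2.card = p := by
    rw [hS2, Finset.card_image_of_injective, card_univ, Fintype.card_fin]
    intro i j h5
    exact Fin.ext (A.ep.inj i i.2 j j.2 h5)
  have c3 : S3.card = p := by
    rw [hS3, Finset.card_image_of_injective, card_univ, Fintype.card_fin]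
    intro i j h5
    exact Fin.ext (A.ep.inj i i.2 j j.2 (neg_injective h5))
  have s1 : S1 ⊆ X := by
    intro y hy
    obtain ⟨W, hW, rfl⟩ := mem_image.1 hy
    exact hF1 W (mem_powersetCard.1 hW).2
  have s2 : S2 ⊆ X := by
    intro y hy
    obtain ⟨k, -, rfl⟩ := mem_image.1 hy
    exact (A.ep.mem k.2).1
  have s3 : S3 ⊆ X := by
    intro y hy
    obtain ⟨k, -, rfl⟩ := mem_image.1 hy
    exact A.ep.negX (A.ep.mem k.2).1
  have big : ∀ i : Fin p, ∃ r : ℝ, p ≤ (univ.filter fun k : Fin p => (inner ℝ (ν i) (ν k) : ℝ) = r).card + 1 := by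
    intro i
    obtain ⟨j, hj⟩ : ∃ j : Fin p, j ≠ i := by
      by_cases h : (i : ℕ) = 0
      · exact ⟨⟨1, by omega⟩, fun h5 => by rw [← h5] at h; simp at h⟩
      · exact ⟨⟨0, by omega⟩, fun h5 => by rw [← h5] at h; simp at h⟩
    refine ⟨inner ℝ (ν i) (ν j), ?_⟩
    have h5 : (univ.erase i).card ≤ (univ.filter fun k : Fin p => (inner ℝ (ν i) (ν k) : ℝ) = inner ℝ (ν i) (ν j)).card := by
      refine card_le_card ?_
      intro k hk
      have hki := (mem_erase.1 hk).1
      simp only [mem_filter, mem_univ, true_and]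
      have h6 := A.inn i i.2 k k.2 j j.2
      rw [if_neg (fun h => hki (Fin.ext h.symm)), if_neg (fun h => hj (Fin.ext h.symm)), inner_sub_right] at h6
      linarith
    rw [card_erase_of_mem (mem_univ i), card_univ, Fintype.card_fin] at h5
    omega
  have d12 : Disjoint S1 S2 := by
    rw [Finset.disjoint_left]
    intro y hy hy2
    obtain ⟨W, hW, rfl⟩ := mem_image.1 hy
    obtain ⟨i, -, hi⟩ := mem_image.1 hy2
    obtain ⟨r, hr⟩ := big i
    have h5 := hF3 W (mem_powersetCard.1 hW).2 r
    rw [← hi] at h5
    omega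
  have d13 : Disjoint S1 S3 := by
    rw [Finset.disjoint_left]
    intro y hy hy2
    obtain ⟨W, hW, rfl⟩ := mem_image.1 hy
    obtain ⟨i, -, hi⟩ := mem_image.1 hy2
    obtain ⟨r, hr⟩ := big i
    have h5 := hF3 W (mem_powersetCard.1 hW).2 (-r)
    rw [← hi] at h5
    have h6 : (univ.filter fun k : Fin p => (inner ℝ (-ν i) (ν k) : ℝ) = -r) =
        univ.filter fun k : Fin p => (inner ℝ (ν i) (ν k) : ℝ) = r := by
      ext k
      simp only [mem_filter, mem_univ, true_and]
      rw [inner_neg_left, neg_inj]
    rw [h6] at h5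
    omega
  have d23 : Disjoint S2 S3 := by
    rw [Finset.disjoint_left]
    intro y hy hy2
    obtain ⟨i, -, rfl⟩ := mem_image.1 hy
    obtain ⟨j, -, hj⟩ := mem_image.1 hy2
    have h5 := congrArg ℓ hj
    rw [map_neg, (A.ep.mem j.2).2, (A.ep.mem i.2).2] at h5
    have := A.ep.cpos
    linarith
  have h5 : (S1 ∪ S2 ∪ S3).card ≤ X.card := card_le_card (union_subset (union_subset s1 s2) s3)
  rw [card_union_of_disjoint (disjoint_union_left.2 ⟨d13, d23⟩), card_union_of_disjoint d12, c1, c2, c3] at h5
  have h6 := choose_ge h2 h3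
  have h7 := A.ep.small
  obtain ⟨q, rfl⟩ : ∃ q, p = q + 1 := ⟨p - 1, by omega⟩
  simp only [Nat.add_sub_cancel] at h6
  nlinarith

theorem EA.typ : ∀ x ∈ X, Typ p ν l x := by
  classical
  intro x hx
  by_contra hT
  have hp := A.ep.five
  have hl := A.lpos
  have hint : ∀ i j : Fin p, ∃ m : ℤ, (inner ℝ x (ν i) : ℝ) - inner ℝ x (ν j) = (l / 2) * m := by
    intro i j
    by_cases hij : i = j
    · exact ⟨0, by rw [hij]; simp⟩
    · have hij' : (i : ℕ) ≠ j := fun h => hij (Fin.ext h)
      obtain ⟨m, hm⟩ := A.ep.sat.int _ (A.mem i i.2 j j.2 hij') x hx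
      refine ⟨m, ?_⟩
      rw [A.co_diff i.2 j.2 hij', inner_sub_right] at hm
      rw [← hm]
      field_simp
  by_cases hcls : ∀ r : ℝ, (univ.filter fun k : Fin p => (inner ℝ x (ν k) : ℝ) = r).card + 2 ≤ p
  · by_cases h2 : ∃ r : ℝ, 2 ≤ (univ.filter fun k : Fin p => (inner ℝ x (ν k) : ℝ) = r).card
    · obtain ⟨r, hr⟩ := h2
      exact A.cnt hx (fun v => v = r) hr (hcls r) hcls
    · push Not at h2
      have hinj : ∀ i j : Fin p, (inner ℝ x (ν i) : ℝ) = inner ℝ x (ν j) → i = j := by
        intro i j hij
        have h3 := h2 (inner ℝ x (ν j))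
        have h4 := Finset.card_le_one.1 (Nat.lt_succ_iff.1 h3)
        exact h4 i (by simp [hij]) j (by simp)
      set i0 : Fin p := ⟨0, by omega⟩
      set i1 : Fin p := ⟨1, by omega⟩
      have h01 : i0 ≠ i1 := by
        intro h
        have := congrArg Fin.val h
        simp [i0, i1] at this
      have h5 : (univ.filter fun k : Fin p => (fun v : ℝ => v = inner ℝ x (ν i0) ∨ v = inner ℝ x (ν i1)) (inner ℝ x (ν k))) = {i0, i1} := by
        ext k
        simp only [mem_filter, mem_univ, true_and, mem_insert, mem_singleton]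
        constructor
        · rintro (h | h)
          · left; exact hinj _ _ h
          · right; exact hinj _ _ h
        · rintro (h | h)
          · left; rw [h]
          · right; rw [h]
      refine A.cnt hx (fun v => v = inner ℝ x (ν i0) ∨ v = inner ℝ x (ν i1)) ?_ ?_ hcls
      · rw [h5, card_pair h01]
      · rw [h5, card_pair h01]
        omega
  · push Not at hcls
    obtain ⟨r, hr⟩ := hcls
    -- at most one value is different from r
    have h1 : (univ.filter fun k : Fin p => ¬ (inner ℝ x (ν k) : ℝ) = r).card ≤ 1 := by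
      have h2 := Finset.card_filter_add_card_filter_not (s := (univ : Finset (Fin p))) (fun k : Fin p => (inner ℝ x (ν k) : ℝ) = r)
      rw [card_univ, Fintype.card_fin] at h2
      omega
    by_cases h0 : ∀ k : Fin p, (inner ℝ x (ν k) : ℝ) = r
    · apply hT
      left
      intro i hi j hj
      have h3 := h0 ⟨i, hi⟩
      have h4 := h0 ⟨j, hj⟩
      simp only at h3 h4
      rw [inner_sub_right, h3, h4, sub_self]
    · push Not at h0
      obtain ⟨k, hk⟩ := h0
      have hne : ∀ i : Fin p, i ≠ k → (inner ℝ x (ν i) : ℝ) = r := by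
        intro i hi
        by_contra h3
        exact hi (Finset.card_le_one.1 h1 i (by simp [h3]) k (by simp [hk]))
      obtain ⟨j, hj⟩ : ∃ j : Fin p, j ≠ k := by
        by_cases h : (k : ℕ) = 0
        · exact ⟨⟨1, by omega⟩, fun h5 => by rw [← h5] at h; simp at h⟩
        · exact ⟨⟨0, by omega⟩, fun h5 => by rw [← h5] at h; simp at h⟩
      have hjk : (j : ℕ) ≠ k := fun h => hj (Fin.ext h)
      obtain ⟨m, hm⟩ := hint k j
      rw [hne j hj] at hm
      have hm0 : m ≠ 0 := by
        rintro rfl
        apply hk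
        simp at hm
        linarith
      -- the case of deviation one
      have typ1 : ∀ s : ℝ, (s = 1 ∨ s = -1) → (m : ℝ) = s → False := by
        intro s hs hms
        apply hT
        right
        refine ⟨s, hs, k, k.2, fun i hi i' hi' => ?_⟩
        have hv : ∀ i : ℕ, i < p → (inner ℝ x (ν i) : ℝ) = r + (if (k : ℕ) = i then s * (l / 2) else 0) := by
          intro i hi
          by_cases h : (k : ℕ) = i
          · rw [if_pos h, ← h]
            rw [hms] at hm
            linarith
          · rw [if_neg h]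
            have := hne ⟨i, hi⟩ (fun h5 => h (by rw [← h5]))
            simp only at this
            rw [this, add_zero]
        rw [inner_sub_right, hv i hi, hv i' hi']
        split_ifs <;> ring
      -- a deviation of at least two: subtract s (ν k - ν j)
      have hs : ∃ s : ℤ, (s = 1 ∨ s = -1) ∧ m ≠ s ∧ x - (s : ℝ) • (ν k - ν j) ∈ X := by
        have hin : (inner ℝ x (ν k - ν j) : ℝ) = (l / 2) * m := by
          rw [inner_sub_right, hne j hj]
          exact hm
        rcases lt_or_gt_of_ne hm0 with h | h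
        · refine ⟨-1, Or.inr rfl, fun h5 => typ1 (-1) (Or.inr rfl) (by rw [h5]; norm_num), ?_⟩
          have h6 : (inner ℝ x (ν k - ν j) : ℝ) < 0 := by
            rw [hin]
            have : (m : ℝ) < 0 := by exact_mod_cast h
            nlinarith
          have h7 := A.ep.add_mem' (A.mem k k.2 j j.2 (Ne.symm hjk)) hx h6
          have e : x - ((-1 : ℤ) : ℝ) • (ν k - ν j) = x + (ν k - ν j) := by
            push_cast
            rw [neg_smul, one_smul, sub_neg_eq_add]
          rw [e]
          exact h7
        · refine ⟨1, Or.inl rfl, fun h5 => typ1 1 (Or.inl rfl) (by rw [h5]; norm_num), ?_⟩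
          have h6 : (0 : ℝ) < inner ℝ x (ν k - ν j) := by
            rw [hin]
            have : (0 : ℝ) < (m : ℝ) := by exact_mod_cast h
            positivity
          have h7 := A.ep.sub_mem' (A.mem k k.2 j j.2 (Ne.symm hjk)) hx h6
          have e : x - ((1 : ℤ) : ℝ) • (ν k - ν j) = x - (ν k - ν j) := by
            push_cast
            rw [one_smul]
          rw [e]
          exact h7
      obtain ⟨s, hs1, hms, hy⟩ := hs
      have hs0 : (s : ℝ) ≠ 0 := by
        rcases hs1 with rfl | rfl <;> norm_num
      have hyv : ∀ i : Fin p, (inner ℝ (x - (s : ℝ) • (ν k - ν j)) (ν i) : ℝ) =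
          inner ℝ x (ν i) - s * ((l / 2) * ((if (i : ℕ) = k then 1 else 0) - (if (i : ℕ) = j then 1 else 0))) := by
        intro i
        rw [inner_sub_left, inner_smul_left, real_inner_comm (ν i) (ν k - ν j), A.inn i i.2 k k.2 j j.2]
        simp only [conj_trivial]
      have hyk : (inner ℝ (x - (s : ℝ) • (ν k - ν j)) (ν k) : ℝ) ≠ r := by
        rw [hyv k, if_pos rfl, if_neg (Ne.symm hjk)]
        intro h5
        have h6 : (l / 2) * ((m : ℝ) - s) = 0 := by linarith
        rcases mul_eq_zero.1 h6 with h7 | h7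
        · linarith
        · exact hms (by exact_mod_cast sub_eq_zero.1 h7)
      have hyj : (inner ℝ (x - (s : ℝ) • (ν k - ν j)) (ν j) : ℝ) ≠ r := by
        rw [hyv j, if_neg hjk, if_pos rfl, hne j hj]
        intro h5
        have h6 : (l / 2) * (s : ℝ) = 0 := by linarith
        rcases mul_eq_zero.1 h6 with h7 | h7
        · linarith
        · exact hs0 h7
      have hyi : ∀ i : Fin p, i ≠ k → i ≠ j → (inner ℝ (x - (s : ℝ) • (ν k - ν j)) (ν i) : ℝ) = r := by
        intro i h5 h6
        rw [hyv i, if_neg (fun h => h5 (Fin.ext h)), if_neg (fun h => h6 (Fin.ext h)), hne i h5]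
        ring
      have hU : (univ.filter fun i : Fin p => (fun v : ℝ => v ≠ r) (inner ℝ (x - (s : ℝ) • (ν k - ν j)) (ν i))) = {k, j} := by
        ext i
        simp only [mem_filter, mem_univ, true_and, mem_insert, mem_singleton]
        constructor
        · intro h5
          by_contra h6
          push Not at h6
          exact h5 (hyi i h6.1 h6.2)
        · rintro (h5 | h5)
          · rw [h5]; exact hyk
          · rw [h5]; exact hyj
      refine A.cnt hy (fun v => v ≠ r) ?_ ?_ ?_
      · rw [hU, card_pair (Ne.symm hj)]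
      · rw [hU, card_pair (Ne.symm hj)]
        omega
      · intro r'
        by_cases hr' : r' = r
        · subst hr'
          have h5 := Finset.card_filter_add_card_filter_not (s := (univ : Finset (Fin p)))
            (fun i : Fin p => (inner ℝ (x - (s : ℝ) • (ν k - ν j)) (ν i) : ℝ) = r')
          have h6 : (univ.filter fun i : Fin p => ¬ (inner ℝ (x - (s : ℝ) • (ν k - ν j)) (ν i) : ℝ) = r').card = 2 := by
            have h7 := hU
            simp only at h7
            rw [h7, card_pair (Ne.symm hj)]
          rw [h6, card_univ, Fintype.card_fin] at h5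
          omega
        · have h5 : (univ.filter fun i : Fin p => (inner ℝ (x - (s : ℝ) • (ν k - ν j)) (ν i) : ℝ) = r') ⊆ {k, j} := by
            intro i hi
            simp only [mem_filter, mem_univ, true_and] at hi
            simp only [mem_insert, mem_singleton]
            by_contra h6
            push Not at h6
            rw [hyi i h6.1 h6.2] at hi
            exact hr' hi.symm
          have h6 := card_le_card h5
          rw [card_pair (Ne.symm hj)] at h6
          omega

end EP

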